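import Pool.Agent.BPN.St.Spec
import Pool.Agent.BPN.F.Main

/-!
# The final statement: group spectra, homotopy groups, weak equivalences (project BPN)
-/

namespace BPN.St

/-! ### Conversions -/

theorem GSpec.d_zero (G : GSpec) (i : ℕ) {q r : ℤ} (h : q + 1 = r) : G.U.d i h 0 = 0 := by
  rw [← G.pt_zero, ← G.pt_zero, G.U.d_pt]

theorem GSpec.s_zero (G : GSpec) (i : ℕ) {q r : ℤ} (h : q + 1 = r) : G.U.s i h 0 = 0 := by
  rw [← G.pt_zero, ← G.pt_zero, G.U.s_pt]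

/-- A group spectrum in the old form. -/
def GSpec.toG (G : GSpec) : GSp where
  G := G.U.X
  grp := G.grp
  d := fun i {q r} h =>
    { toFun := G.U.d i h
      map_zero' := G.d_zero i h
      map_add' := G.d_add i h }
  s := fun i {q r} h =>
    { toFun := G.U.s i h
      map_zero' := G.s_zero i h
      map_add' := G.s_add i h }
  dd := G.U.dd
  ds_lt := G.U.ds_lt
  ds_eq := G.U.ds_eq
  ds_succ := G.U.ds_succ
  ds_gt := G.U.ds_gt
  ss := G.U.ss
  fin := fun {q r} h x => by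
    obtain ⟨n, hn⟩ := G.U.fin h x
    exact ⟨n, fun i hi => (hn i hi).trans (G.pt_zero q)⟩

/-- The underlying spectrum of an old group spectrum. -/
def ofU (E : GSp) : Spec where
  X := E.G
  pt := fun _ => 0
  d := fun i _ _ h x => E.d i h x
  s := fun i _ _ h x => E.s i h x
  d_pt := fun _ _ _ _ => map_zero _
  s_pt := fun _ _ _ _ => map_zero _
  dd := E.dd
  ds_lt := E.ds_lt
  ds_eq := E.ds_eq
  ds_succ := E.ds_succ
  ds_gt := E.ds_gt
  ss := E.ss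
  fin := E.fin

/-- An old group spectrum in the new form. -/
def ofG (E : GSp) : GSpec where
  U := ofU E
  grp := E.grp
  pt_zero := fun _ => rfl
  d_add := fun i _ _ h => (E.d i h).map_add'
  s_add := fun i _ _ h => (E.s i h).map_add'

/-- Maps. -/
def Mor.toMap {G H : GSpec} (a : Mor G.U H.U) : Map G.toG.U H.toG where
  f := a.f
  map_pt := fun q => by
    change a.f q (0 : G.U.X q) = (0 : H.U.X q)
    rw [← G.pt_zero, a.map_pt, H.pt_zero]
  map_d := a.map_d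
  map_s := a.map_s

/-- Homomorphisms. -/
def Mor.toHom {G H : GSpec} (a : Mor G.U H.U) (ha : ∀ q x y, a.f q (x + y) = a.f q x + a.f q y) :
    GSp.Hom G.toG H.toG where
  f := fun q =>
    { toFun := a.f q
      map_zero' := a.toMap.map_pt q
      map_add' := ha q }
  map_d := a.map_d
  map_s := a.map_s

theorem Mor.ofHom_toHom {G H : GSpec} (a : Mor G.U H.U)
    (ha : ∀ q x y, a.f q (x + y) = a.f q x + a.f q y) : Map.ofHom (a.toHom ha) = a.toMap := rfl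

/-- Old homomorphisms to new group spectra. -/
def ofHom {E : GSp} {H : GSpec} (f : GSp.Hom E H.toG) : Mor (ofG E).U H.U where
  f := fun q x => f.f q x
  map_pt := fun q => (map_zero (f.f q)).trans (H.pt_zero q).symm
  map_d := fun i _ _ h x => f.map_d i h x
  map_s := fun i _ _ h x => f.map_s i h x

/-! ### Cycles and boundaries -/

theorem isZ_iff {G : GSpec} {q : ℤ} {x : G.U.X q} :
    IsZ G x ↔ (show G.toG.G q from x) ∈ G.toG.Z q := by
  constructor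
  · intro h i r hr
    exact (h i hr).trans (G.pt_zero r)
  · intro h i r hr
    exact (h i hr).trans (G.pt_zero r).symm

theorem isB_iff {G : GSpec} {q : ℤ} {x : G.U.X q} :
    IsB G x ↔ (show G.toG.G q from x) ∈ G.toG.B q := by
  constructor
  · rintro ⟨y, hy, hyx⟩
    refine ⟨y, fun i r hr => ?_, hyx⟩
    obtain rfl : r = q := by omega
    exact (hy i).trans (G.pt_zero r)
  · rintro ⟨y, hy, hyx⟩
    exact ⟨y, fun i => (hy i rfl).trans (G.pt_zero q).symm, hyx⟩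

theorem isZ_ofG {E : GSp} {q : ℤ} {x : E.G q} : IsZ (ofG E) (q := q) x ↔ x ∈ E.Z q :=
  Iff.rfl

theorem isB_ofG {E : GSp} {q : ℤ} {x : E.G q} : IsB (ofG E) (q := q) x ↔ x ∈ E.B q := by
  constructor
  · rintro ⟨y, hy, hyx⟩
    refine ⟨y, fun i r hr => ?_, hyx⟩
    obtain rfl : r = q := by omega
    exact hy i
  · rintro ⟨y, hy, hyx⟩
    exact ⟨y, fun i => hy i rfl, hyx⟩

/-! ### Homotopy groups -/

theorem HasPi.equiv {G : GSpec} {q : ℤ} {A : Type} [AddCommGroup A] (h : HasPi G q A) :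
    Nonempty (G.toG.pi q ≃+ A) := by
  obtain ⟨φ, h1, h2, h3⟩ := h
  have hz : φ 0 = 0 := by
    have h0 : IsZ G (0 : G.U.X q) := isZ_iff.mpr (zero_mem _)
    have h4 := h1 0 0 h0 h0
    rw [add_zero] at h4
    exact left_eq_add.mp h4
  obtain ⟨f, hf⟩ : ∃ f : G.toG.Z q →+ A, ∀ z, f z = φ z.1 :=
    ⟨{ toFun := fun z => φ z.1
       map_zero' := hz
       map_add' := fun x y => h1 x.1 y.1 (isZ_iff.mpr x.2) (isZ_iff.mpr y.2) }, fun _ => rfl⟩
  have hk : (G.toG.B q).addSubgroupOf (G.toG.Z q) ≤ f.ker := by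
    intro z hz
    rw [AddMonoidHom.mem_ker, hf]
    exact (h3 z.1 (isZ_iff.mpr z.2)).mpr (isB_iff.mpr hz)
  refine ⟨AddEquiv.ofBijective (QuotientAddGroup.lift _ f hk) ⟨?_, ?_⟩⟩
  · rw [injective_iff_map_eq_zero]
    intro x hx
    obtain ⟨z, rfl⟩ := G.toG.piMk_surj q x
    have h4 : f z = 0 := hx
    rw [hf] at h4
    exact GSp.piMk_eq_zero.mpr (isB_iff.mp ((h3 z.1 (isZ_iff.mpr z.2)).mp h4))
  · intro a
    obtain ⟨x, hx, hxa⟩ := h2 a
    exact ⟨G.toG.piMk q ⟨x, isZ_iff.mp hx⟩, (hf _).trans hxa⟩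

theorem Connective.toG {G : GSpec} (h : Connective G) : BPN.Connective G.toG := by
  intro q hq x hx
  exact isB_iff.mp (h q hq x (isZ_iff.mpr hx))

theorem IsWE.toMap {G H : GSpec} {c : Mor G.U H.U} (h : IsWE c) : c.toMap.WE := by
  intro q
  constructor
  · rw [injective_iff_map_eq_zero]
    intro x hx
    obtain ⟨z, rfl⟩ := G.toG.piMk_surj q x
    rw [Map.pi_mk, GSp.piMk_eq_zero] at hx
    exact GSp.piMk_eq_zero.mpr (isB_iff.mp ((h q).1 z.1 (isZ_iff.mpr z.2) (isB_iff.mpr hx)))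
  · intro y
    obtain ⟨w, rfl⟩ := H.toG.piMk_surj q y
    obtain ⟨x, hx, hB⟩ := (h q).2 w.1 (isZ_iff.mpr w.2)
    refine ⟨G.toG.piMk q ⟨x, isZ_iff.mp hx⟩, ?_⟩
    rw [Map.pi_mk]
    exact GSp.piMk_eq.mpr (isB_iff.mp hB)

theorem IsWE.ofHom {E : GSp} {H : GSpec} {f : GSp.Hom E H.toG} (h : (Map.ofHom f).WE) :
    IsWE (G := ofG E) (ofHom f) := by
  intro q
  constructor
  · intro x hx hB
    have h1 : (Map.ofHom f).pi q (E.piMk q ⟨x, isZ_ofG.mp hx⟩) = 0 := by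
      rw [Map.pi_mk, GSp.piMk_eq_zero]
      exact isB_iff.mp hB
    have h2 := (h q).1 (h1.trans (map_zero _).symm)
    exact isB_ofG.mpr (GSp.piMk_eq_zero.mp h2)
  · intro y hy
    obtain ⟨x, hx⟩ := (h q).2 (H.toG.piMk q ⟨y, isZ_iff.mp hy⟩)
    obtain ⟨z, rfl⟩ := E.piMk_surj q x
    rw [Map.pi_mk, GSp.piMk_eq] at hx
    exact ⟨z.1, isZ_ofG.mpr z.2, isB_iff.mpr hx⟩

theorem WeakEquiv.toG {G H : GSpec} (h : WeakEquiv G H) : BPN.WeakEquiv G.toG H.toG := by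
  obtain ⟨E, f, g, hf, hg, wf, wg⟩ := h
  exact ⟨E.toG, f.toHom hf, g.toHom hg, wf.toMap, wg.toMap⟩

theorem WeakEquiv.ofG {G H : GSpec} (h : BPN.WeakEquiv G.toG H.toG) : WeakEquiv G H := by
  obtain ⟨E, f, g, wf, wg⟩ := h
  exact ⟨St.ofG E, ofHom f, ofHom g, fun q x y => map_add (f.f q) x y,
    fun q x y => map_add (g.f q) x y, IsWE.ofHom wf, IsWE.ofHom wg⟩

/-! ### Completions -/

theorem piMk_nsmul (G : GSp) (q : ℤ) (m : ℕ) (z : G.Z q) :
    (m : ℤ) • G.piMk q z = G.piMk q (m • z) := by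
  rw [natCast_zsmul, map_nsmul]

theorem IsPCompletion.toMap {p : ℕ} [Fact p.Prime] {G H : GSpec} {c : Mor G.U H.U}
    (h : IsPCompletion p c) : BPN.IsPCompletion p c.toMap := by
  intro q
  obtain ⟨⟨A, _, hA, hpi⟩, h2⟩ := h q
  obtain ⟨e⟩ := hpi.equiv
  refine ⟨complete_of_equiv e.symm hA, fun k => ⟨fun x hx => ?_, fun y => ?_⟩⟩
  · obtain ⟨z, rfl⟩ := G.toG.piMk_surj q x
    obtain ⟨y, hy⟩ := hx
    obtain ⟨w, rfl⟩ := H.toG.piMk_surj q y
    rw [← Nat.cast_pow, piMk_nsmul, Map.pi_mk, GSp.piMk_eq] at hy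
    obtain ⟨t, ht, hB⟩ := (h2 k).1 z.1 (isZ_iff.mpr z.2) ⟨w.1, isZ_iff.mpr w.2, isB_iff.mpr hy⟩
    refine ⟨G.toG.piMk q ⟨t, isZ_iff.mp ht⟩, ?_⟩
    rw [← Nat.cast_pow, piMk_nsmul]
    exact GSp.piMk_eq.mpr (isB_iff.mp hB)
  · obtain ⟨w, rfl⟩ := H.toG.piMk_surj q y
    obtain ⟨x, z, hx, hz, hB⟩ := (h2 k).2 w.1 (isZ_iff.mpr w.2)
    refine ⟨G.toG.piMk q ⟨x, isZ_iff.mp hx⟩, H.toG.piMk q ⟨z, isZ_iff.mp hz⟩, ?_⟩
    rw [← Nat.cast_pow, piMk_nsmul, Map.pi_mk, ← map_add]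
    exact GSp.piMk_eq.mpr (isB_iff.mp hB)

/-- The two forms of `π_q BP<n>`. -/
noncomputable def bpnEquiv (p n : ℕ) [Fact p.Prime] (q : ℤ) : BPnPi p n q ≃+ BPN.BPnPi p n q :=
  Finsupp.mapRange.addEquiv
    { toFun := fun x => (⟨x.1, x.2⟩ : BPN.Zloc p)
      invFun := fun x => (⟨x.1, x.2⟩ : Zloc p)
      left_inv := fun _ => rfl
      right_inv := fun _ => rfl
      map_add' := fun _ _ => rfl }

end BPN.St
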