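import Pool.Agent.BPN.St.BrA

/-!
# The final statement: cohomology (project BPN)
-/

namespace BPN.St

/-- Identifications of a spectrum with an old one. -/
structure Ident (X : Spec) (Y : PSp) where
  e : ∀ q, X.X q ≃ Y.X q
  pt : ∀ q, e q (X.pt q) = Y.pt q
  d : ∀ (i : ℕ) {q r : ℤ} (h : q + 1 = r) (x : X.X r), e q (X.d i h x) = Y.d i h (e r x)
  s : ∀ (i : ℕ) {q r : ℤ} (h : q + 1 = r) (x : X.X q), e r (X.s i h x) = Y.s i h (e q x)

namespace Ident

variable {X Z : Spec} {Y : PSp} {K : GSp}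

theorem pt' (I : Ident X Y) (q : ℤ) : (I.e q).symm (Y.pt q) = X.pt q := by
  rw [Equiv.symm_apply_eq, I.pt]

theorem d' (I : Ident X Y) (i : ℕ) {q r : ℤ} (h : q + 1 = r) (y : Y.X r) :
    (I.e q).symm (Y.d i h y) = X.d i h ((I.e r).symm y) := by
  rw [Equiv.symm_apply_eq, I.d, Equiv.apply_symm_apply]

theorem s' (I : Ident X Y) (i : ℕ) {q r : ℤ} (h : q + 1 = r) (y : Y.X q) :
    (I.e r).symm (Y.s i h y) = X.s i h ((I.e q).symm y) := by
  rw [Equiv.symm_apply_eq, I.s, Equiv.apply_symm_apply]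

/-- Transport of a map. -/
def toMap (I : Ident X Y) (J : Ident Z K.U) (a : Mor X Z) : Map Y K where
  f := fun q y => J.e q (a.f q ((I.e q).symm y))
  map_pt := fun q => by rw [I.pt', a.map_pt]; exact J.pt q
  map_d := fun i q r h y => by rw [I.d', a.map_d]; exact J.d i h _
  map_s := fun i q r h y => by rw [I.s', a.map_s]; exact J.s i h _

/-- Transport back. -/
def ofMap (I : Ident X Y) (J : Ident Z K.U) (b : Map Y K) : Mor X Z where
  f := fun q x => (J.e q).symm (b.f q (I.e q x))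
  map_pt := fun q => by rw [I.pt, b.map_pt]; exact J.pt' q
  map_d := fun i q r h y => by rw [I.d, b.map_d]; exact J.d' i h _
  map_s := fun i q r h y => by rw [I.s, b.map_s]; exact J.s' i h _

theorem toMap_f (I : Ident X Y) (J : Ident Z K.U) (a : Mor X Z) (q : ℤ) (y : Y.X q) :
    (I.toMap J a).f q y = J.e q (a.f q ((I.e q).symm y)) := rfl

theorem ofMap_f (I : Ident X Y) (J : Ident Z K.U) (b : Map Y K) (q : ℤ) (x : X.X q) :
    (I.ofMap J b).f q x = (J.e q).symm (b.f q (I.e q x)) := rfl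

theorem toMap_ofMap (I : Ident X Y) (J : Ident Z K.U) (b : Map Y K) :
    I.toMap J (I.ofMap J b) = b :=
  Map.ext2 fun q y => by
    rw [toMap_f, ofMap_f, Equiv.apply_symm_apply, Equiv.apply_symm_apply]

end Ident

/-- Group spectra. -/
def idG (G : GSpec) : Ident G.U G.toG.U where
  e := fun _ => Equiv.refl _
  pt := G.pt_zero
  d := fun _ _ _ _ _ => rfl
  s := fun _ _ _ _ _ => rfl

/-- Eilenberg-MacLane spectra. -/
def idE (p : ℕ) (n : ℤ) : Ident (EM p n) (BPN.EM (ZMod p) n).U where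
  e := fun q =>
    { toFun := fun x => ⟨x.1, x.2.mem⟩
      invFun := fun x => ⟨x.1, IsEM.of_mem x.2⟩
      left_inv := fun _ => rfl
      right_inv := fun _ => rfl }
  pt := fun _ => rfl
  d := fun _ _ _ _ _ => rfl
  s := fun _ _ _ _ _ => rfl

theorem idE_val {p : ℕ} {n q : ℤ} (x : EMx p n q) :
    (((idE p n).e q x : (BPN.EM (ZMod p) n).G q)).1 id = EMx.val x := rfl

/-- The coboundary formula for a map to the path spectrum. -/
theorem path_cobd {p : ℕ} {Y : PSp} {k : ℤ} (B : Map Y (BPN.EM (ZMod p) k).P) (y : Y.X k) :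
    ∃ K₀ : ℕ, ∀ K, K₀ ≤ K → ((Map.post (BPN.EM (ZMod p) k).dP B).f k y).1 id =
      ∑ i ∈ Finset.range K, (-1 : ℤ) ^ i •
        (B.f (k - 1) (Y.d i (sub_add_cancel k 1) y) : (BPN.EM (ZMod p) k).G (k - 1 + 1)).1 id := by
  obtain ⟨K₀, hK⟩ := (B.f k y : (BPN.EM (ZMod p) k).G (k + 1)).2.2.2 id monotone_id
    ⟨0, fun i _ => by rw [id_eq]; omega⟩
  refine ⟨K₀, fun K hKK => ?_⟩
  have h1 := hK (K + 1) (by omega)
  rw [Finset.sum_range_succ', pow_zero, one_smul] at h1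
  have h2 : ∀ i, (B.f k y : (BPN.EM (ZMod p) k).G (k + 1)).1 (id ∘ BPN.dl (i + 1)) =
      (B.f (k - 1) (Y.d i (sub_add_cancel k 1) y) : (BPN.EM (ZMod p) k).G (k - 1 + 1)).1 id := by
    intro i
    have h3 := B.map_d i (sub_add_cancel k 1) y
    exact (congrArg (fun z : (BPN.EM (ZMod p) k).G (k - 1 + 1) => z.1 id) h3).symm
  have h4 : ((Map.post (BPN.EM (ZMod p) k).dP B).f k y).1 id =
      (B.f k y : (BPN.EM (ZMod p) k).G (k + 1)).1 (id ∘ BPN.dl 0) := rfl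
  rw [h4]
  have h5 : ∑ i ∈ Finset.range K, (-1 : ℤ) ^ (i + 1) •
      (B.f k y : (BPN.EM (ZMod p) k).G (k + 1)).1 (id ∘ BPN.dl (i + 1)) =
      -∑ i ∈ Finset.range K, (-1 : ℤ) ^ i •
        (B.f (k - 1) (Y.d i (sub_add_cancel k 1) y) : (BPN.EM (ZMod p) k).G (k - 1 + 1)).1 id := by
    rw [← Finset.sum_neg_distrib]
    refine Finset.sum_congr rfl fun i _ => ?_
    rw [h2, pow_succ, mul_neg_one, neg_smul]
  rw [h5] at h1
  exact (neg_add_eq_zero.mp h1).symm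

/-- Coboundaries and nullhomotopic maps. -/
theorem isCob_iff {p : ℕ} {X : Spec} {Y : PSp} (I : Ident X Y) {k : ℤ}
    (m : Map Y (BPN.EM (ZMod p) k)) {c : X.X k → ZMod p}
    (hc : ∀ x, c x = (m.f k (I.e k x)).1 id) : IsCob X k c ↔ m.Null := by
  constructor
  · rintro ⟨b, hpt, hdeg, hb⟩
    obtain ⟨B, hB⟩ := BPN.EM.exists_mapP (M := ZMod p) (X := Y) (sub_add_cancel k 1)
      (fun y => b ((I.e (k - 1)).symm y)) (by rw [I.pt', hpt])
      (fun i q h y => by rw [I.s', hdeg])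
    refine ⟨B, BPN.EM.map_ext fun y => ?_⟩
    obtain ⟨K₀, hK⟩ := path_cobd B y
    obtain ⟨K₁, hK'⟩ := hb ((I.e k).symm y)
    rw [hK (max K₀ K₁) (le_max_left _ _)]
    have h1 := hc ((I.e k).symm y)
    rw [Equiv.apply_symm_apply] at h1
    rw [← h1, hK' (max K₀ K₁) (le_max_right _ _)]
    refine Finset.sum_congr rfl fun i _ => ?_
    rw [hB, I.d']
  · rintro ⟨B, rfl⟩
    refine ⟨fun x => (B.f (k - 1) (I.e (k - 1) x) : (BPN.EM (ZMod p) k).G (k - 1 + 1)).1 id,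
      ?_, fun i q h x => ?_, fun x => ?_⟩
    · beta_reduce
      rw [I.pt, B.map_pt]
      rfl
    · beta_reduce
      rw [I.s, B.map_s]
      have h1 : B.f q (I.e q x) = 0 :=
        BPN.EMG.eq_zero_of_lt (M := ZMod p) (n := k) (q := q + 1) (by omega) _
      rw [h1, map_zero]
      rfl
    · obtain ⟨K₀, hK⟩ := path_cobd B (I.e k x)
      refine ⟨K₀, fun K hKK => ?_⟩
      rw [hc, hK K hKK]
      refine Finset.sum_congr rfl fun i _ => ?_
      beta_reduce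
      rw [I.d]

theorem sub_val {p : ℕ} {Y : PSp} {k : ℤ} (a b : Map Y (BPN.EM (ZMod p) k)) (y : Y.X k) :
    ((a + -b).f k y).1 id = (a.f k y).1 id - (b.f k y).1 id := by
  rw [sub_eq_add_neg]
  rfl

/-- Sums of classes. -/
theorem exists_sum {p : ℕ} {Y : PSp} {k : ℤ} {n : ℕ} (m : Fin n → Map Y (BPN.EM (ZMod p) k)) :
    ∃ S : Map Y (BPN.EM (ZMod p) k), HC.mk S = ∑ i, HC.mk (m i) ∧
      ∀ y, (S.f k y).1 id = ∑ i, ((m i).f k y).1 id := by
  induction n with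
  | zero =>
    refine ⟨0, ?_, fun y => ?_⟩
    · rw [map_zero, Finset.univ_eq_empty, Finset.sum_empty]
    · rw [Finset.univ_eq_empty, Finset.sum_empty]
      rfl
  | succ n ih =>
    obtain ⟨S, h1, h2⟩ := ih (fun i => m i.succ)
    refine ⟨m 0 + S, ?_, fun y => ?_⟩
    · rw [map_add, h1, Fin.sum_univ_succ]
    · rw [Fin.sum_univ_succ, ← h2]
      rfl

/-- `Q` as an old operation. -/
def Op.toOp {p k : ℕ} (a : Op p k) : BPN.Op p k := (idE p 0).toMap (idE p k) a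

theorem IsCyc.toG {p n : ℕ} {Q : ∀ i : Fin (n + 1), Op p (2 * p ^ (i : ℕ) - 1)} {Y : GSpec}
    {u : Mor Y.U (EM p 0)} (h : IsCyc Q Y.U u) :
    BPN.IsCyc (fun i => (Q i).toOp) Y.toG ((idG Y).toMap (idE p 0) u) := by
  refine ⟨fun k x => ?_, fun k a => ?_⟩
  · obtain ⟨a, ha⟩ := h.gen k ((idG Y).ofMap (idE p k) x)
    refine ⟨(idE p 0).toMap (idE p k) a, ?_⟩
    rw [HC.mk_eq]
    refine (isCob_iff (idG Y) _ fun y => ?_).mp ha
    rw [sub_val]
    rfl
  · have h1 := h.rel k ((idE p 0).ofMap (idE p k) a)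
    have h2 : IsCob Y.U k (fun y => cls ((idE p 0).ofMap (idE p k) a) (u.f k y)) ↔
        (Map.comp a ((idG Y).toMap (idE p 0) u)).Null := isCob_iff (idG Y) _ fun y => rfl
    rw [← h2, h1]
    constructor
    · rintro ⟨b, hb⟩
      refine ⟨fun i => (idE p (2 * p ^ (i : ℕ) - 1 : ℕ)).toMap (idE p k) (b i), ?_⟩
      obtain ⟨S, hS1, hS2⟩ := exists_sum fun i =>
        Map.comp ((idE p (2 * p ^ (i : ℕ) - 1 : ℕ)).toMap (idE p k) (b i)) (Q i).toOp
      rw [← hS1, HC.mk_eq]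
      refine (isCob_iff (idE p 0) _ fun z => ?_).mp hb
      rw [sub_val, hS2]
      rfl
    · rintro ⟨b, hb⟩
      refine ⟨fun i => (idE p (2 * p ^ (i : ℕ) - 1 : ℕ)).ofMap (idE p k) (b i), ?_⟩
      obtain ⟨S, hS1, hS2⟩ := exists_sum fun i => Map.comp (b i) (Q i).toOp
      rw [← hS1, HC.mk_eq] at hb
      refine (isCob_iff (idE p 0) _ fun z => ?_).mpr hb
      rw [sub_val, hS2]
      rfl

end BPN.St
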