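import Pool.Agent.BPN.St.BrB

/-!
# The final statement: derivations, assembly (project BPN)
-/

namespace BPN.St

open CategoryTheory Opposite Simplicial

theorem IsCoc.of_mem {p : ℕ} {X : SSet.{0}} {m : ℕ} {c : Sx X m → ZMod p}
    (hc : (show X.obj (op ⦋m⦌) → ZMod p from c) ∈ BPN.CoZ X (ZMod p) m) : IsCoc c :=
  ⟨fun i a h hi τ => hc.1 i a h hi τ, fun σ => hc.2 σ⟩

theorem pullFun_eq {p : ℕ} {X : SSet.{0}} {m j : ℕ} (c : Sx X m → ZMod p) (σ : Sx X j) {q : ℤ}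
    (hq : q = j - m) (hq' : q - 0 = j - m) :
    BPN.pullFun (show X.obj (op ⦋m⦌) → ZMod p from c) σ (n := 0) hq' = pullFun c σ hq := by
  funext f
  by_cases hf : StrictMono f ∧ ∀ i : ℕ, m < i → (f i : ℤ) = i + q
  · have hf' : StrictMono f ∧ ∀ i : ℕ, m < i → (f i : ℤ) = i + (q - 0) := by
      rwa [sub_zero]
    unfold BPN.pullFun pullFun
    rw [dif_pos hf, dif_pos hf']
    rfl
  · have hf' : ¬ (StrictMono f ∧ ∀ i : ℕ, m < i → (f i : ℤ) = i + (q - 0)) := by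
      rwa [sub_zero]
    unfold BPN.pullFun pullFun
    rw [dif_neg hf, dif_neg hf']

theorem act_eq {p k m l : ℕ} (a : Op p k) (h : m + k = l) {X : SSet.{0}} (c : BPN.CoZ X (ZMod p) m)
    (hc : IsCoc (p := p) (X := X) (m := m) c.1) (σ : Sx X l) :
    act a h c.1 hc σ = BPN.act a.toOp h c σ := by
  have h1 : ((idE p 0).e (k : ℤ)).symm (BPN.pull c σ (n := 0) (q := k) (by omega)) =
      (⟨pullFun c.1 σ (show (k : ℤ) = l - m by omega), pull_mem hc σ _⟩ : EMx p 0 k) :=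
    Subtype.ext (pullFun_eq c.1 σ (by omega) (by omega))
  unfold act BPN.act
  rw [← h1]
  rfl

theorem cobd_eq {p : ℕ} {X : SSet.{0}} {m l : ℕ} (h : m + 1 = l) (c : Sx X m → ZMod p)
    (σ : Sx X l) : cobd h c σ = BPN.cobd (X := X) (M := ZMod p) h c σ := rfl

theorem IsBd.old {p : ℕ} {X : SSet.{0}} {l : ℕ} {z : Sx X l → ZMod p} (h : IsBd z) :
    BPN.IsBd (X := X) (M := ZMod p) (l := l) z := by
  rcases h with h | ⟨m, hm, e, he, hz⟩
  · exact Or.inl (funext h)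
  · exact Or.inr ⟨m, hm, e, fun i a ha hi τ => he i a ha hi τ, funext hz⟩

theorem IsDeriv.toOp {p k : ℕ} {Q : Op p k} (h : IsDeriv Q) : BPN.IsDeriv Q.toOp := by
  intro X a b c a' b' c' hc ha' hb' hc' x y z hz
  obtain ⟨z, hzm⟩ := z
  obtain rfl : z = BPN.cup hc x.1 y.1 := hz
  have hx : IsCoc (p := p) (X := X) (m := a) x.1 := IsCoc.of_mem x.2
  have hy : IsCoc (p := p) (X := X) (m := b) y.1 := IsCoc.of_mem y.2
  have hz' : IsCoc (p := p) (X := X) (m := c) (cup hc x.1 y.1) := IsCoc.of_mem hzm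
  have h1 := (h X a b c a' b' c' hc ha' hb' hc' x.1 hx y.1 hy hz').old
  refine (congrArg (BPN.IsBd (X := X) (M := ZMod p) (l := c')) (funext fun σ => ?_)).mp h1
  have e1 : act Q ha' x.1 hx = BPN.act Q.toOp ha' x := funext fun τ => act_eq Q ha' x hx τ
  have e2 : act Q hb' y.1 hy = BPN.act Q.toOp hb' y := funext fun τ => act_eq Q hb' y hy τ
  have e3 := act_eq Q hc' ⟨_, hzm⟩ hz' σ
  rw [e1, e2]
  exact congrArg (fun t => t - _) e3

theorem IsBPn.toG {p n : ℕ} [Fact p.Prime] {B : GSpec} (h : IsBPn p n B) :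
    BPN.IsBPn p n B.toG := by
  obtain ⟨h1, h2, Q, u, h3, h4⟩ := h
  refine ⟨h1.toG, fun q => ?_, fun i => (Q i).toOp, _, fun i => ⟨fun hn => (h3 i).1 ?_,
    (h3 i).2.toOp⟩, h4.toG⟩
  · obtain ⟨e⟩ := (h2 q).equiv
    exact ⟨e.trans (bpnEquiv p n q)⟩
  · exact (isCob_iff (idE p 0) (Q i).toOp fun z => rfl).mpr hn

/-- **The main theorem.** -/
theorem main (p : ℕ) [Fact p.Prime] (n : ℕ) (B X Z₁ Z₂ : GSpec) (hB : IsBPn p n B)
    (hX : Connective X) (hπ : ∀ q, HasPi X q (BPnPi p n q))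
    (b : Mor B.U Z₁.U) (hb : IsPCompletion p b) (x : Mor X.U Z₂.U) (hx : IsPCompletion p x)
    (hZ : WeakEquiv Z₁ Z₂) : WeakEquiv X B :=
  WeakEquiv.ofG (BPN.main p n B.toG X.toG Z₁.toG Z₂.toG hB.toG hX.toG (fun q => by
    obtain ⟨e⟩ := (hπ q).equiv
    exact ⟨e.trans (bpnEquiv p n q)⟩) b.toMap hb.toMap x.toMap hx.toMap hZ.toG)

end BPN.St
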