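import Pool.Agent.BPN.Pull
import Pool.Agent.BPN.F.Zp

/-!
# The notions of the final statement (project BPN)

Self-contained definitions, kept as elementary as possible.
-/

namespace BPN.St

open CategoryTheory Opposite Simplicial

/-! ### Kan's spectra -/

/-- Pointed-set spectra (Kan's semisimplicial spectra). -/
structure Spec where
  X : ℤ → Type
  pt : ∀ q, X q
  d : ℕ → ∀ {q r : ℤ}, q + 1 = r → X r → X q
  s : ℕ → ∀ {q r : ℤ}, q + 1 = r → X q → X r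
  d_pt : ∀ (i : ℕ) {q r : ℤ} (h : q + 1 = r), d i h (pt r) = pt q
  s_pt : ∀ (i : ℕ) {q r : ℤ} (h : q + 1 = r), s i h (pt q) = pt r
  dd : ∀ {i j : ℕ}, i ≤ j → ∀ {q r t : ℤ} (h₁ : q + 1 = r) (h₂ : r + 1 = t) (x : X t),
      d i h₁ (d (j + 1) h₂ x) = d j h₁ (d i h₂ x)
  ds_lt : ∀ {i j : ℕ}, i ≤ j → ∀ {q r t : ℤ} (h₁ : q + 1 = r) (h₂ : r + 1 = t) (x : X r),
      d i h₂ (s (j + 1) h₂ x) = s j h₁ (d i h₁ x)
  ds_eq : ∀ (i : ℕ) {q r : ℤ} (h : q + 1 = r) (x : X q), d i h (s i h x) = x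
  ds_succ : ∀ (i : ℕ) {q r : ℤ} (h : q + 1 = r) (x : X q), d (i + 1) h (s i h x) = x
  ds_gt : ∀ {i j : ℕ}, j < i → ∀ {q r t : ℤ} (h₁ : q + 1 = r) (h₂ : r + 1 = t) (x : X r),
      d (i + 1) h₂ (s j h₂ x) = s j h₁ (d i h₁ x)
  ss : ∀ {i j : ℕ}, i ≤ j → ∀ {q r t : ℤ} (h₁ : q + 1 = r) (h₂ : r + 1 = t) (x : X q),
      s i h₂ (s j h₁ x) = s (j + 1) h₂ (s i h₁ x)
  fin : ∀ {q r : ℤ} (h : q + 1 = r) (x : X r), ∃ n : ℕ, ∀ i, n ≤ i → d i h x = pt q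

/-- Maps of pointed-set spectra. -/
structure Mor (X Y : Spec) where
  f : ∀ q, X.X q → Y.X q
  map_pt : ∀ q, f q (X.pt q) = Y.pt q
  map_d : ∀ (i : ℕ) {q r : ℤ} (h : q + 1 = r) (x : X.X r), f q (X.d i h x) = Y.d i h (f r x)
  map_s : ∀ (i : ℕ) {q r : ℤ} (h : q + 1 = r) (x : X.X q), f r (X.s i h x) = Y.s i h (f q x)

/-- Kan's group spectra, written additively (the groups need not be commutative). -/
structure GSpec where
  U : Spec
  grp : ∀ q, AddGroup (U.X q)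
  pt_zero : ∀ q, U.pt q = 0
  d_add : ∀ (i : ℕ) {q r : ℤ} (h : q + 1 = r) (x y : U.X r),
    U.d i h (x + y) = U.d i h x + U.d i h y
  s_add : ∀ (i : ℕ) {q r : ℤ} (h : q + 1 = r) (x y : U.X q),
    U.s i h (x + y) = U.s i h x + U.s i h y

attribute [instance] GSpec.grp

/-- `x` is a cycle: all its faces are trivial. -/
def IsZ (G : GSpec) {q : ℤ} (x : G.U.X q) : Prop :=
  ∀ (i : ℕ) {r : ℤ} (h : r + 1 = q), G.U.d i h x = G.U.pt r

/-- `x` is a boundary: `x = d 0 y` where all other faces of `y` are trivial. -/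
def IsB (G : GSpec) {q : ℤ} (x : G.U.X q) : Prop :=
  ∃ y : G.U.X (q + 1), (∀ i : ℕ, G.U.d (i + 1) rfl y = G.U.pt q) ∧ G.U.d 0 rfl y = x

/-- The homotopy group `π_q G` (cycles modulo boundaries) is isomorphic to `A`. -/
def HasPi (G : GSpec) (q : ℤ) (A : Type) [AddCommGroup A] : Prop :=
  ∃ φ : G.U.X q → A, (∀ x y, IsZ G x → IsZ G y → φ (x + y) = φ x + φ y) ∧
    (∀ a, ∃ x, IsZ G x ∧ φ x = a) ∧ ∀ x, IsZ G x → (φ x = 0 ↔ IsB G x)

/-- `π_q G = 0` for `q < 0`. -/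
def Connective (G : GSpec) : Prop := ∀ q, q < 0 → ∀ x : G.U.X q, IsZ G x → IsB G x

/-- `c` induces isomorphisms on all homotopy groups. -/
def IsWE {G H : GSpec} (c : Mor G.U H.U) : Prop :=
  ∀ q, (∀ x : G.U.X q, IsZ G x → IsB H (c.f q x) → IsB G x) ∧
    ∀ y : H.U.X q, IsZ H y → ∃ x, IsZ G x ∧ IsB H (c.f q x + -y)

/-- `G` and `H` are weakly equivalent: there is a zigzag `G ← E → H` of homomorphisms of group spectra
which are isomorphisms on homotopy groups. -/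
def WeakEquiv (G H : GSpec) : Prop :=
  ∃ (E : GSpec) (f : Mor E.U G.U) (g : Mor E.U H.U),
    (∀ q x y, f.f q (x + y) = f.f q x + f.f q y) ∧ (∀ q x y, g.f q (x + y) = g.f q x + g.f q y) ∧
    IsWE f ∧ IsWE g

/-- `c` is a `p`-completion: the homotopy groups of the target are `p`-adically complete, and `c` induces
isomorphisms `π_q / p^k`. -/
def IsPCompletion (p : ℕ) {G H : GSpec} (c : Mor G.U H.U) : Prop :=
  ∀ q : ℤ, (∃ (A : Type) (_ : AddCommGroup A),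
      IsAdicComplete (Ideal.span {(p : ℤ)}) A ∧ HasPi H q A) ∧
    ∀ k : ℕ,
      (∀ x : G.U.X q, IsZ G x → (∃ y, IsZ H y ∧ IsB H (c.f q x + -(p ^ k • y))) →
        ∃ z, IsZ G z ∧ IsB G (x + -(p ^ k • z))) ∧
      ∀ y : H.U.X q, IsZ H y → ∃ x z, IsZ G x ∧ IsZ H z ∧ IsB H (y + -(c.f q x + p ^ k • z))

/-! ### Eilenberg-MacLane spectra and the Steenrod algebra -/

/-- Skip the value `i`. -/
def dl (i j : ℕ) : ℕ := if j < i then j else j + 1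

/-- Identify `i` and `i + 1`. -/
def sg (i j : ℕ) : ℕ := if j ≤ i then j else j - 1

/-- `f` is eventually the shift by `k`. -/
def Shift (f : ℕ → ℕ) (k : ℤ) : Prop := ∃ N : ℕ, ∀ i, N ≤ i → (f i : ℤ) = i + k

/-- `c` is a normalised `n`-cocycle, with values in `F_p`, on the stable simplex of degree `q`. -/
structure IsEM (p : ℕ) (n q : ℤ) (c : (ℕ → ℕ) → ZMod p) : Prop where
  supp : ∀ f, c f ≠ 0 → StrictMono f ∧ Shift f (q - n)
  fin : ∃ D : ℕ, ∀ f, c f ≠ 0 → ∀ v, D ≤ v → ∃ i, f i = v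
  coc : ∀ g : ℕ → ℕ, Monotone g → Shift g (q - n - 1) →
    ∃ K₀ : ℕ, ∀ K, K₀ ≤ K → ∑ i ∈ Finset.range K, (-1 : ℤ) ^ i • c (g ∘ dl i) = 0

theorem IsEM.mem {p : ℕ} {n q : ℤ} {c : (ℕ → ℕ) → ZMod p} (h : IsEM p n q c) :
    c ∈ BPN.EMG (ZMod p) n q := ⟨h.1, h.2, h.3⟩

theorem IsEM.of_mem {p : ℕ} {n q : ℤ} {c : (ℕ → ℕ) → ZMod p}
    (h : c ∈ BPN.EMG (ZMod p) n q) : IsEM p n q c := ⟨h.1, h.2.1, h.2.2⟩

theorem IsEM.zero (p : ℕ) (n q : ℤ) : IsEM p n q (fun _ => 0) :=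
  IsEM.of_mem (BPN.EMG (ZMod p) n q).zero_mem

theorem IsEM.face {p : ℕ} {n q r : ℤ} {c : (ℕ → ℕ) → ZMod p} (hc : IsEM p n r c) (i : ℕ)
    (h : q + 1 = r) : IsEM p n q (fun f => c (dl i ∘ f)) :=
  IsEM.of_mem (BPN.EMG.d_mem i h hc.mem)

theorem IsEM.deg {p : ℕ} {n q r : ℤ} {c : (ℕ → ℕ) → ZMod p} (hc : IsEM p n q c) (i : ℕ)
    (h : q + 1 = r) : IsEM p n r (fun f => c (sg i ∘ f)) :=
  IsEM.of_mem (BPN.EMG.s_mem i h hc.mem)

/-- The simplices of degree `q` of the Eilenberg-MacLane spectrum. -/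
def EMx (p : ℕ) (n q : ℤ) : Type := {c : (ℕ → ℕ) → ZMod p // IsEM p n q c}

/-- Faces. -/
def EMx.d {p : ℕ} {n : ℤ} (i : ℕ) {q r : ℤ} (h : q + 1 = r) (x : EMx p n r) : EMx p n q :=
  ⟨fun f => x.1 (dl i ∘ f), x.2.face i h⟩

/-- Degeneracies. -/
def EMx.s {p : ℕ} {n : ℤ} (i : ℕ) {q r : ℤ} (h : q + 1 = r) (x : EMx p n q) : EMx p n r :=
  ⟨fun f => x.1 (sg i ∘ f), x.2.deg i h⟩

theorem EMx.dd {p : ℕ} {n : ℤ} {i j : ℕ} (hij : i ≤ j) {q r t : ℤ} (h₁ : q + 1 = r)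
    (h₂ : r + 1 = t) (x : EMx p n t) :
    EMx.d i h₁ (EMx.d (j + 1) h₂ x) = EMx.d j h₁ (EMx.d i h₂ x) :=
  Subtype.ext (funext fun f => congrArg x.1 (funext fun a => BPN.dl_dl hij (f a)))

theorem EMx.ds_lt {p : ℕ} {n : ℤ} {i j : ℕ} (hij : i ≤ j) {q r t : ℤ} (h₁ : q + 1 = r)
    (h₂ : r + 1 = t) (x : EMx p n r) :
    EMx.d i h₂ (EMx.s (j + 1) h₂ x) = EMx.s j h₁ (EMx.d i h₁ x) :=
  Subtype.ext (funext fun f => congrArg x.1 (funext fun a => BPN.sg_dl_lt hij (f a)))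

theorem EMx.ds_eq {p : ℕ} {n : ℤ} (i : ℕ) {q r : ℤ} (h : q + 1 = r) (x : EMx p n q) :
    EMx.d i h (EMx.s i h x) = x :=
  Subtype.ext (funext fun f => congrArg x.1 (funext fun a => BPN.sg_dl_eq i (f a)))

theorem EMx.ds_succ {p : ℕ} {n : ℤ} (i : ℕ) {q r : ℤ} (h : q + 1 = r) (x : EMx p n q) :
    EMx.d (i + 1) h (EMx.s i h x) = x :=
  Subtype.ext (funext fun f => congrArg x.1 (funext fun a => BPN.sg_dl_succ i (f a)))

theorem EMx.ds_gt {p : ℕ} {n : ℤ} {i j : ℕ} (hij : j < i) {q r t : ℤ} (h₁ : q + 1 = r)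
    (h₂ : r + 1 = t) (x : EMx p n r) :
    EMx.d (i + 1) h₂ (EMx.s j h₂ x) = EMx.s j h₁ (EMx.d i h₁ x) :=
  Subtype.ext (funext fun f => congrArg x.1 (funext fun a => BPN.sg_dl_gt hij (f a)))

theorem EMx.ss {p : ℕ} {n : ℤ} {i j : ℕ} (hij : i ≤ j) {q r t : ℤ} (h₁ : q + 1 = r)
    (h₂ : r + 1 = t) (x : EMx p n q) :
    EMx.s i h₂ (EMx.s j h₁ x) = EMx.s (j + 1) h₂ (EMx.s i h₁ x) :=
  Subtype.ext (funext fun f => congrArg x.1 (funext fun a => BPN.sg_sg hij (f a)))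

theorem EMx.fin {p : ℕ} {n : ℤ} {q r : ℤ} (h : q + 1 = r) (x : EMx p n r) :
    ∃ N : ℕ, ∀ i, N ≤ i → EMx.d i h x = ⟨fun _ => 0, IsEM.zero p n q⟩ := by
  obtain ⟨D, hD⟩ := x.2.fin
  refine ⟨D, fun i hi => Subtype.ext (funext fun f => ?_)⟩
  change x.1 (dl i ∘ f) = 0
  by_contra hne
  obtain ⟨j, hj⟩ := hD _ hne i hi
  simp only [Function.comp_apply, dl] at hj
  split_ifs at hj <;> omega

/-- The Eilenberg-MacLane spectrum `Σ^n H F_p`, cocycle model. -/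
def EM (p : ℕ) (n : ℤ) : Spec where
  X := EMx p n
  pt := fun q => ⟨fun _ => 0, IsEM.zero p n q⟩
  d := EMx.d
  s := EMx.s
  d_pt := fun _ _ _ _ => rfl
  s_pt := fun _ _ _ _ => rfl
  dd := EMx.dd
  ds_lt := EMx.ds_lt
  ds_eq := EMx.ds_eq
  ds_succ := EMx.ds_succ
  ds_gt := EMx.ds_gt
  ss := EMx.ss
  fin := EMx.fin

/-- The value of a simplex of degree `n` of `Σ^n H F_p` at the identity. -/
def EMx.val {p : ℕ} {n q : ℤ} (x : EMx p n q) : ZMod p := x.1 id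

/-- The cocycle (function on the simplices of degree `k`) given by a map to `Σ^k H F_p`. -/
def cls {p : ℕ} {k : ℤ} {X : Spec} (a : Mor X (EM p k)) (x : X.X k) : ZMod p :=
  EMx.val (a.f k x)

/-- The function `c` on the simplices of degree `k` is the coboundary of a normalised cochain. -/
def IsCob {p : ℕ} (X : Spec) (k : ℤ) (c : X.X k → ZMod p) : Prop :=
  ∃ b : X.X (k - 1) → ZMod p, b (X.pt (k - 1)) = 0 ∧
    (∀ (i : ℕ) (q : ℤ) (h : q + 1 = k - 1) (x : X.X q), b (X.s i h x) = 0) ∧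
    ∀ x : X.X k, ∃ K₀ : ℕ, ∀ K, K₀ ≤ K →
      c x = ∑ i ∈ Finset.range K, (-1 : ℤ) ^ i • b (X.d i (sub_add_cancel k 1) x)

/-- Operations of degree `k` in mod `p` cohomology: maps `H F_p → Σ^k H F_p`. -/
abbrev Op (p k : ℕ) : Type := Mor (EM p 0) (EM p k)

/-- The class `u` of degree `0` generates `H^*(Y; F_p)` over the Steenrod algebra, and its annihilator is
the left ideal generated by `Q_0, .., Q_n`. -/
structure IsCyc {p n : ℕ} (Q : ∀ i : Fin (n + 1), Op p (2 * p ^ (i : ℕ) - 1)) (Y : Spec)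
    (u : Mor Y (EM p 0)) : Prop where
  gen : ∀ (k : ℤ) (x : Mor Y (EM p k)), ∃ a : Mor (EM p 0) (EM p k),
    IsCob Y k (fun y => cls a (u.f k y) - cls x y)
  rel : ∀ (k : ℤ) (a : Mor (EM p 0) (EM p k)), IsCob Y k (fun y => cls a (u.f k y)) ↔
    ∃ b : ∀ i : Fin (n + 1), Mor (EM p (2 * p ^ (i : ℕ) - 1 : ℕ)) (EM p k),
      IsCob (EM p 0) k (fun z => cls a z - ∑ i, cls (b i) ((Q i).f k z))

/-! ### The action on the cohomology of simplicial sets -/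

/-- The simplices of dimension `m` of a simplicial set. -/
def Sx (X : SSet.{0}) (m : ℕ) : Type := X.obj (op ⦋m⦌)

/-- The morphism `[a] → [b]` of the simplex category given by a monotone function on `ℕ`. -/
def opm (f : ℕ → ℕ) (hf : Monotone f) {a b : ℕ} (hb : ∀ i, i ≤ a → f i ≤ b) :
    (⦋a⦌ : SimplexCategory) ⟶ ⦋b⦌ :=
  SimplexCategory.Hom.mk ⟨fun x => ⟨f x.1, Nat.lt_succ_of_le (hb x.1 (Nat.le_of_lt_succ x.2))⟩,
    fun _ _ h => hf h⟩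

/-- The operator on simplices given by a monotone function on `ℕ`. -/
def opr (X : SSet.{0}) (f : ℕ → ℕ) (hf : Monotone f) {a b : ℕ} (hb : ∀ i, i ≤ a → f i ≤ b)
    (σ : Sx X b) : Sx X a := X.map (opm f hf hb).op σ

theorem dl_mono (i : ℕ) : Monotone (dl i) := (BPN.dl_strictMono i).monotone

theorem sg_mono (i : ℕ) : Monotone (sg i) := BPN.sg_mono i

theorem dl_bd (i : ℕ) {a b : ℕ} (h : a + 1 = b) : ∀ j, j ≤ a → dl i j ≤ b := BPN.dl_bd i h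

theorem sg_bd (i : ℕ) {a b : ℕ} (h : a + 1 = b) (hi : i ≤ a) : ∀ j, j ≤ b → sg i j ≤ a :=
  BPN.sg_bd i h hi

/-- Face of a simplex. -/
def fc (X : SSet.{0}) (i : ℕ) {a b : ℕ} (h : a + 1 = b) (σ : Sx X b) : Sx X a :=
  opr X (dl i) (dl_mono i) (dl_bd i h) σ

/-- Degeneracy of a simplex. -/
def dg (X : SSet.{0}) (i : ℕ) {a b : ℕ} (h : a + 1 = b) (hi : i ≤ a) (σ : Sx X a) : Sx X b :=
  opr X (sg i) (sg_mono i) (sg_bd i h hi) σ

/-- Coboundary of a cochain. -/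
def cobd {p : ℕ} {X : SSet.{0}} {m l : ℕ} (h : m + 1 = l) (c : Sx X m → ZMod p) (σ : Sx X l) :
    ZMod p := ∑ i ∈ Finset.range (l + 1), (-1 : ℤ) ^ i • c (fc X i h σ)

/-- Normalised cochains. -/
def IsNorm {p : ℕ} {X : SSet.{0}} {m : ℕ} (c : Sx X m → ZMod p) : Prop :=
  ∀ (i a : ℕ) (h : a + 1 = m) (hi : i ≤ a) (τ : Sx X a), c (dg X i h hi τ) = 0

/-- Normalised cocycles. -/
structure IsCoc {p : ℕ} {X : SSet.{0}} {m : ℕ} (c : Sx X m → ZMod p) : Prop where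
  norm : IsNorm c
  coc : ∀ σ : Sx X (m + 1), cobd rfl c σ = 0

/-- Coboundaries of normalised cochains. -/
def IsBd {p : ℕ} {X : SSet.{0}} {l : ℕ} (z : Sx X l → ZMod p) : Prop :=
  (∀ σ, z σ = 0) ∨ ∃ (m : ℕ) (h : m + 1 = l) (e : Sx X m → ZMod p), IsNorm e ∧
    ∀ σ, z σ = cobd h e σ

theorem pull_bd {m j : ℕ} {q : ℤ} (hq : q = j - m) {f : ℕ → ℕ}
    (hf : StrictMono f ∧ ∀ i : ℕ, m < i → (f i : ℤ) = i + q) : ∀ i, i ≤ m → f i ≤ j := by
  intro i hi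
  have h1 : f i < f (m + 1) := hf.1 (by omega)
  have h2 := hf.2 (m + 1) (by omega)
  push_cast at h2
  omega

open Classical in
/-- The function on strictly monotone maps given by a cochain `c` and a simplex `σ`: the value of `c` at
`f^* σ` if `f i = i + q` for `i > m`. -/
noncomputable def pullFun {p : ℕ} {X : SSet.{0}} {m j : ℕ} (c : Sx X m → ZMod p) (σ : Sx X j)
    {q : ℤ} (hq : q = j - m) (f : ℕ → ℕ) : ZMod p :=
  if h : StrictMono f ∧ ∀ i : ℕ, m < i → (f i : ℤ) = i + q then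
    c (opr X f h.1.monotone (pull_bd hq h) σ) else 0

theorem IsCoc.mem {p : ℕ} {X : SSet.{0}} {m : ℕ} {c : Sx X m → ZMod p} (hc : IsCoc c) :
    (show X.obj (op ⦋m⦌) → ZMod p from c) ∈ BPN.CoZ X (ZMod p) m :=
  ⟨fun i a h hi τ => hc.norm i a h hi τ, fun σ => hc.coc σ⟩

theorem pull_mem {p : ℕ} {X : SSet.{0}} {m j : ℕ} {c : Sx X m → ZMod p} (hc : IsCoc c)
    (σ : Sx X j) {q : ℤ} (hq : q = j - m) : IsEM p 0 q (pullFun c σ hq) := by
  have h := IsEM.of_mem (BPN.pullFun_mem hc.mem σ (n := 0) (q := q) (by omega))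
  have e : BPN.pullFun (show X.obj (op ⦋m⦌) → ZMod p from c) σ (n := 0) (q := q) (by omega) =
      pullFun c σ hq := by
    funext f
    by_cases hf : StrictMono f ∧ ∀ i : ℕ, m < i → (f i : ℤ) = i + q
    · have hf' : StrictMono f ∧ ∀ i : ℕ, m < i → (f i : ℤ) = i + (q - 0) := by
        rwa [sub_zero]
      unfold BPN.pullFun pullFun
      rw [dif_pos hf, dif_pos hf']
      rfl
    · have hf' : ¬ (StrictMono f ∧ ∀ i : ℕ, m < i → (f i : ℤ) = i + (q - 0)) := by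
        rwa [sub_zero]
      unfold BPN.pullFun pullFun
      rw [dif_neg hf, dif_neg hf']
  rwa [e] at h

/-- The action of an operation on a cocycle of a simplicial set. -/
noncomputable def act {p k m l : ℕ} (a : Op p k) (h : m + k = l) {X : SSet.{0}}
    (c : Sx X m → ZMod p) (hc : IsCoc c) (σ : Sx X l) : ZMod p :=
  EMx.val (a.f k ⟨pullFun c σ (show (k : ℤ) = l - m by omega), pull_mem hc σ _⟩)

/-- Cup product of cochains: front `a`-face and back `b`-face. -/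
def cup {p : ℕ} {X : SSet.{0}} {a b c : ℕ} (h : a + b = c) (x : Sx X a → ZMod p)
    (y : Sx X b → ZMod p) (σ : Sx X c) : ZMod p :=
  x (opr X id monotone_id (fun i hi => by simp only [id]; omega) σ) *
    y (opr X (fun i => i + a) (fun _ _ hij => Nat.add_le_add_right hij a)
      (fun i hi => by omega) σ)

/-- `Q` is a derivation for cup products: `Q (x y) = (Q x) y + (-1)^(|x| k) x (Q y)` in cohomology. -/
def IsDeriv {p k : ℕ} (Q : Op p k) : Prop :=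
  ∀ (X : SSet.{0}) (a b c a' b' c' : ℕ) (hc : a + b = c) (ha' : a + k = a') (hb' : b + k = b')
    (hc' : c + k = c') (x : Sx X a → ZMod p) (hx : IsCoc x) (y : Sx X b → ZMod p) (hy : IsCoc y)
    (hz : IsCoc (cup hc x y)),
    IsBd (fun σ => act Q hc' (cup hc x y) hz σ -
      (cup (show a' + b = c' by omega) (act Q ha' x hx) y σ +
        (-1 : ℤ) ^ (a * k) • cup (show a + b' = c' by omega) x (act Q hb' y hy) σ))

/-! ### `BP<n>` -/

theorem den_add {p : ℕ} [Fact p.Prime] {a b : ℚ} (ha : ¬ p ∣ a.den) (hb : ¬ p ∣ b.den) :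
    ¬ p ∣ (a + b).den := (BPN.Zloc p).add_mem (x := a) (y := b) ha hb

theorem den_zero {p : ℕ} [Fact p.Prime] : ¬ p ∣ (0 : ℚ).den := (BPN.Zloc p).zero_mem

theorem den_neg {p : ℕ} {a : ℚ} (ha : ¬ p ∣ a.den) : ¬ p ∣ (-a).den := by rwa [Rat.den_neg_eq_den]

/-- `Z_(p)`: the rational numbers whose denominator is prime to `p`. -/
def Zloc (p : ℕ) [Fact p.Prime] : AddSubgroup ℚ where
  carrier := {x | ¬ p ∣ x.den}
  add_mem' := den_add
  zero_mem' := den_zero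
  neg_mem' := den_neg

/-- `π_q BP<n> = Z_(p)[v_1, .., v_n]_q`, `|v_i| = 2 (p^i - 1)`. -/
abbrev BPnPi (p n : ℕ) [Fact p.Prime] (q : ℤ) : Type :=
  {I : Fin n → ℕ // ∑ i, (I i : ℤ) * (2 * ((p : ℤ) ^ ((i : ℕ) + 1) - 1)) = q} →₀ Zloc p

/-- `B` is a form of `BP<n>`: connective, with the homotopy groups of `BP<n>`, and
`H^*(B; F_p) ≅ A / A (Q_0, .., Q_n)` where `Q_i` is a nonzero derivation of degree `2 p^i - 1`. -/
def IsBPn (p n : ℕ) [Fact p.Prime] (B : GSpec) : Prop :=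
  Connective B ∧ (∀ q, HasPi B q (BPnPi p n q)) ∧
  ∃ (Q : ∀ i : Fin (n + 1), Op p (2 * p ^ (i : ℕ) - 1)) (u : Mor B.U (EM p 0)),
    (∀ i : Fin (n + 1), ¬ IsCob (EM p 0) ((2 * p ^ (i : ℕ) - 1 : ℕ) : ℤ) (cls (Q i)) ∧
      IsDeriv (Q i)) ∧
    IsCyc Q B.U u

end BPN.St
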